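import Pool.Agent.X163.MG

/-!
# The McKay–Galois conjecture: almost bijections suffice

Let `x = (G, D)` be a finite group with a Sylow `p`-subgroup `D`, `N_G(D)` its normaliser (`Nm x.D`), and `IrrP p G` the set of
the irreducible characters of `G` of degree prime to `p`. Let `S` be a set of field automorphisms of `ℂ` and `lab` a
function of the degrees.

* `Exact p S lab x.G (Nm x.D)`: there is a bijection `Irr_{p'}(G) → Irr_{p'}(N_G(D))` which commutes with all automorphisms in
  `S` and preserves the value of `lab` at the degree. With `S = 𝓗` (`HH p`) and `lab` constant this is the McKay–Galois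
  conjecture for `(G, D)`.
* `Almost p S lab x.G (Nm x.D) t`: there are `S`-stable subsets `X ⊆ Irr_{p'}(G)` and `Y ⊆ Irr_{p'}(N_G(D))`, both with at
  most `t` elements in the complement, and such a bijection `X → Y`.

Theorem. Let `P` be a class of pairs `(G, D)` closed under `(G, D) ↦ (G × C₂, D × E)`, `E` the Sylow `p`-subgroup of `C₂`.
(1) The McKay–Galois bijections exist on `P` if and only if for every `ε > 0` there is `N` such that for all `(G, D)` in
`P` with `|G| ≥ N` there is an `𝓗`-equivariant bijection as above between `𝓗`-stable subsets of `Irr_{p'}(G)` and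
`Irr_{p'}(N_G(D))` which omits at most `ε |G|` characters on either side. (2) The same for every set `S` of automorphisms of
`ℂ` and every function `lab` of the degrees (for example the degree modulo `p` up to sign).
-/

set_option autoImplicit false

namespace Pool.Agent.Results.MP_1ae3da_al.AlmostBijections

open Pool.Agent.X27.Chr Pool.Agent.X163.MG

/-- The automorphisms `σ` of `ℂ` for which there is `e` with `σ(ξ) = ξ ^ (p ^ e)` for all roots of
unity `ξ` of order prime to `p`. -/
def HH (p : ℕ) : Set (RingAut ℂ) :=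
  {σ | ∃ e : ℕ, ∀ (n : ℕ) (ξ : ℂ), ¬ p ∣ n → ξ ^ n = 1 → σ ξ = ξ ^ p ^ e}

theorem result (p : ℕ) (hp : Fact p.Prime) (P : Syl p → Prop) (hP : Closed2 P) :
    ((∀ x, P x → Exact p (HH p) (fun _ => ()) x.G (Nm x.D)) ↔
      ∀ ε : ℝ, 0 < ε → ∃ N : ℕ, ∀ x, P x → N ≤ Nat.card x.G →
        Almost p (HH p) (fun _ => ()) x.G (Nm x.D) (ε * Nat.card x.G)) ∧
    ∀ (S : Set (RingAut ℂ)) (T : Type) (lab : ℂ → T),
      (∀ x, P x → Exact p S lab x.G (Nm x.D)) ↔
      ∀ ε : ℝ, 0 < ε → ∃ N : ℕ, ∀ x, P x → N ≤ Nat.card x.G →
        Almost p S lab x.G (Nm x.D) (ε * Nat.card x.G) :=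
  ⟨main P hP (HH p) (fun _ => ()), fun S _ lab => main P hP S lab⟩

end Pool.Agent.Results.MP_1ae3da_al.AlmostBijections
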