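import Pool.Agent.X27.Chr.Mk

/-!
# The McKay–Galois conjecture and its asymptotic form

Let `x = (G, D)` be a finite group with a Sylow `p`-subgroup `D`, and `𝓗` (`NavH p`) the set of the automorphisms of `ℂ`
which act on the roots of unity of order prime to `p` by `ξ ↦ ξ^(p^e)` for some `e ≥ 0`. (They act on characters through
their restriction to the field of algebraic numbers, and each element of the group in the conjecture extends to
`ℂ`.) For `K ⊆ 𝓗` let `x.cG K` and `x.cN K` be the numbers of the irreducible characters of degree prime to `p` of `G` and of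
`N_G(D)` which are fixed by all elements of `K`. The actions of `𝓗` on `Irr_{p'}(G)` and `Irr_{p'}(N_G(D))` are
permutation isomorphic if and only if `x.cG K = x.cN K` for all `K ⊆ 𝓗` (Burnside).

Theorem. Let `P` be a class of pairs `(G, D)` closed under `(G, D) ↦ (G × G, D × D)`. Then `x.cG K ≤ x.cN K` for
all `x` in `P` and `K ⊆ 𝓗` if and only if for all `ε > 0` there is `C` such that `x.cG K ≤ C |G|^ε x.cN K` for all
these `x` and `K`. The same holds with `cG` and `cN` exchanged. So the conjecture of McKay and Galois type holds on `P` if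
and only if it holds on `P` up to factors `|G|^{o(1)}` in the numbers of fixed points.
-/

set_option autoImplicit false

namespace Pool.Agent.Results.MP_1ae3da_al.Asymptotic

open Pool.Agent.X27.Chr Pool.Agent.Helper884.IC

/-- The automorphisms `τ` of `ℂ` with `τ(ξ) = ξ^(p^e)` on the roots of unity of order prime to `p`, for some `e`. -/
def NavH (p : ℕ) : Set (ℂ ≃+* ℂ) :=
  {τ | ∃ e : ℕ, ∀ (m : ℕ) (ξ : ℂ), ¬ p ∣ m → ξ ^ m = 1 → τ ξ = ξ ^ p ^ e}

theorem result (p : ℕ) (hp : Fact p.Prime) (P : Syl p → Prop) (hP : ∀ x, P x → P x.sq) :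
    ((∀ x, P x → ∀ K, K ⊆ NavH p → x.cG K ≤ x.cN K) ↔ ∀ ε : ℝ, 0 < ε → ∃ C : ℝ, ∀ x, P x →
      ∀ K, K ⊆ NavH p → (x.cG K : ℝ) ≤ C * (Nat.card x.G : ℝ) ^ ε * x.cN K) ∧
    ((∀ x, P x → ∀ K, K ⊆ NavH p → x.cN K ≤ x.cG K) ↔ ∀ ε : ℝ, 0 < ε → ∃ C : ℝ, ∀ x, P x →
      ∀ K, K ⊆ NavH p → (x.cN K : ℝ) ≤ C * (Nat.card x.G : ℝ) ^ ε * x.cG K) := by
  have one : ∀ x : Syl p, ∀ ε : ℝ, 0 < ε → ∀ a b : ℕ, a ≤ b →
      (a : ℝ) ≤ 1 * (Nat.card x.G : ℝ) ^ ε * b := by
    intro x ε hε a b hab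
    have h2 : (1 : ℝ) ≤ (Nat.card x.G : ℝ) ^ ε :=
      Real.one_le_rpow (by exact_mod_cast Nat.card_pos) hε.le
    have h3 : (a : ℝ) ≤ b := by exact_mod_cast hab
    have h4 : (0 : ℝ) ≤ b := Nat.cast_nonneg _
    nlinarith
  refine ⟨⟨fun h ε hε => ⟨1, fun x hx K hK => one x ε hε _ _ (h x hx K hK)⟩, fun h x hx K hK => ?_⟩,
    ⟨fun h ε hε => ⟨1, fun x hx K hK => one x ε hε _ _ (h x hx K hK)⟩, fun h x hx K hK => ?_⟩⟩
  · refine amplify (g := Nat.card x.G) Nat.card_pos fun ε hε => ?_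
    obtain ⟨C, hC⟩ := h ε hε
    refine ⟨C, fun n => ?_⟩
    obtain ⟨y, h1, h2, h3, h4⟩ := Syl.powers K P hP x hx n
    rw [← h2, ← h3, ← h4]
    exact hC y h1 K hK
  · refine amplify (g := Nat.card x.G) Nat.card_pos fun ε hε => ?_
    obtain ⟨C, hC⟩ := h ε hε
    refine ⟨C, fun n => ?_⟩
    obtain ⟨y, h1, h2, h3, h4⟩ := Syl.powers K P hP x hx n
    rw [← h2, ← h3, ← h4]
    exact hC y h1 K hK

end Pool.Agent.Results.MP_1ae3da_al.Asymptotic
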