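import Pool.Agent.X209.CC.Fin

/-!
# The McKay-Galois conjecture and central characters
-/

open Pool.Agent.X209.CC

namespace Pool.Agent.Results.MP_1ae3da_al.CentralCharacters

/-- The automorphisms `σ` of `ℂ` for which there is `e` with `σ(ξ) = ξ ^ (p ^ e)` for all roots of
unity `ξ` of order prime to `p`. -/
def HH (p : ℕ) : Set (ℂ ≃+* ℂ) :=
  {σ | ∃ e : ℕ, ∀ (n : ℕ) (ξ : ℂ), ¬ p ∣ n → ξ ^ n = 1 → σ ξ = ξ ^ p ^ e}

/-- There is a bijection from `Irr_{p'}(G)` to `Irr_{p'}(N_G(P))` which commutes with the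
automorphisms in `S` and preserves the characters of `Z`. -/
def PermIso (p : ℕ) (S : Set (ℂ ≃+* ℂ)) {G : Type} [Group G] (P Z : Subgroup G) : Prop :=
  ∃ f : IrrP p G ≃ IrrP p (Subgroup.normalizer (P : Set G)), Equi S f ∧ PresCentral P Z f

theorem permIso_iff {p : ℕ} {S : Set (ℂ ≃+* ℂ)} {G : Type} [Group G] {P Z : Subgroup G} :
    PermIso p S P Z ↔ CorrZ p S (fun _ => ()) P Z := by
  constructor
  · rintro ⟨f, h1, h2⟩
    exact ⟨f, h1, fun _ => rfl, h2⟩
  · rintro ⟨f, h1, _, h2⟩
    exact ⟨f, h1, h2⟩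

/-- (1) For a finite group `G`, `Z ≤ Z(G)` and `P ∈ Syl_p(G)`: the bijection of the McKay-Galois
conjecture exists for the groups `G/Y`, `Y ≤ Z`, if and only if it exists for `G` and preserves the
characters of `Z`. (2) The McKay-Galois conjecture holds for all finite groups if and only if the
bijections can always be chosen so that they preserve the characters of the centre. -/
theorem result (p : ℕ) [Fact p.Prime] :
    (∀ (S : Set (ℂ ≃+* ℂ)) (G : Type) [Group G] [Finite G] (Z : Subgroup G),
      Z ≤ Subgroup.center G → ∀ P : Sylow p G,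
        (PermIso p S (P : Subgroup G) Z ↔ ∀ Y : Subgroup G, Y ≤ Z → ∀ _ : Y.Normal,
          PermIso p S ((P : Subgroup G).map (QuotientGroup.mk' Y)) (⊥ : Subgroup (G ⧸ Y)))) ∧
    ((∀ (G : Type) [Group G] [Finite G] (P : Sylow p G),
        PermIso p (HH p) (P : Subgroup G) (⊥ : Subgroup G)) ↔
      ∀ (G : Type) [Group G] [Finite G] (P : Sylow p G),
        PermIso p (HH p) (P : Subgroup G) (Subgroup.center G)) := by
  constructor
  · intro S G _ _ Z hZ P
    simp only [permIso_iff]
    exact corrZ_main hZ P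
  · simp only [permIso_iff]
    exact corrZ_global

end Pool.Agent.Results.MP_1ae3da_al.CentralCharacters
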